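import Mathlib

/-!
# Context-preserving jumping CSGs versus jumping monotonous grammars

Symbols are natural numbers; a grammar is a quadruple `(V, T, P, S)` with `V`, `T`, `P` finite.
The language `{aⁿbⁿ : n ≥ 1}` is generated by a context-sensitive grammar with
the context-preserving jumping step, but by no monotonous grammar with the jumping step.
-/

namespace Pool.Agent.Results.MP_b8a1e8_lc.CsgNotMong

/-- A grammar `G = (V, T, P, S)`: `V` the finite total alphabet, `T ⊆ V` the terminals,
`S ∈ V \ T` the start symbol, `P` a finite set of rules `x → y` with `x ∈ V* N V*`,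
`y ∈ V*`, where `N = V \ T`. Symbols are natural numbers. -/
structure Gram where
  /-- total alphabet -/
  V : Finset ℕ
  /-- terminals -/
  T : Finset ℕ
  /-- rules, as pairs (left-hand side, right-hand side) -/
  P : Finset (List ℕ × List ℕ)
  /-- start symbol -/
  S : ℕ
  T_sub : T ⊆ V
  S_mem : S ∈ V \ T
  P_left : ∀ r ∈ P, (∀ s ∈ r.1, s ∈ V) ∧ ∃ s ∈ r.1, s ∈ V \ T
  P_right : ∀ r ∈ P, ∀ s ∈ r.2, s ∈ V

/-- `L(G, ρ)`: the terminal words `w` with `S ρ* w`. -/
def Gram.lang (G : Gram) (ρ : List ℕ → List ℕ → Prop) : Set (List ℕ) :=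
  {w | (∀ s ∈ w, s ∈ G.T) ∧ Relation.ReflTransGen ρ [G.S] w}

/-- `G` is monotonous: `|x| ≤ |y|` for every rule `x → y`. -/
def Gram.IsMONG (G : Gram) : Prop :=
  ∀ r ∈ G.P, r.1.length ≤ r.2.length

/-- `G` is context-sensitive: every rule has the form `αAβ → αγβ` with `A` a nonterminal
and `γ` nonempty. -/
def Gram.IsCSG (G : Gram) : Prop :=
  ∀ r ∈ G.P, ∃ (α : List ℕ) (A : ℕ) (β γ : List ℕ), A ∈ G.V \ G.T ∧ γ ≠ [] ∧
    r = (α ++ [A] ++ β, α ++ γ ++ β)

/-- The jumping step: `u x v ⇒ u' y v'` whenever `x → y` is a rule and `u v = u' v'`. -/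
def Gram.JStep (G : Gram) (w w' : List ℕ) : Prop :=
  ∃ u x v y u' v' : List ℕ, (x, y) ∈ G.P ∧ w = u ++ x ++ v ∧ w' = u' ++ y ++ v' ∧
    u ++ v = u' ++ v'

/-- The context-preserving jumping step: `u α A β v ⇒ u' α γ β v'` whenever `αAβ → αγβ` is a
rule (`A` a nonterminal, `γ` nonempty) and `u α β v = u' α β v'`. -/
def Gram.BStep (G : Gram) (w w' : List ℕ) : Prop :=
  ∃ (u α : List ℕ) (A : ℕ) (β v γ u' v' : List ℕ), (α ++ [A] ++ β, α ++ γ ++ β) ∈ G.P ∧
    A ∈ G.V \ G.T ∧ γ ≠ [] ∧ w = u ++ α ++ [A] ++ β ++ v ∧
    w' = u' ++ α ++ γ ++ β ++ v' ∧ u ++ α ++ β ++ v = u' ++ α ++ β ++ v'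

/-- The word `aⁿbⁿ` with `a = 0`, `b = 1`. -/
def ab (n : ℕ) : List ℕ := List.replicate n 0 ++ List.replicate n 1

/-- The context-sensitive grammar: `a = 0`, `b = 1`, `X = 2`, `S = 3`. -/
def GG : Gram where
  V := {0, 1, 2, 3}
  T := {0, 1}
  P := {([3], [0, 2, 1]), ([3], [0, 1]), ([0, 2, 1], [0, 0, 2, 1, 1]), ([0, 2, 1], [0, 0, 1, 1])}
  S := 3
  T_sub := by decide
  S_mem := by decide
  P_left := by decide
  P_right := by decide

theorem GG_csg : GG.IsCSG := by
  intro r hr
  simp only [GG, Finset.mem_insert, Finset.mem_singleton] at hr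
  rcases hr with rfl | rfl | rfl | rfl
  · exact ⟨[], 3, [], [0, 2, 1], by decide, by decide, rfl⟩
  · exact ⟨[], 3, [], [0, 1], by decide, by decide, rfl⟩
  · exact ⟨[0], 2, [1], [0, 2, 1], by decide, by decide, rfl⟩
  · exact ⟨[0], 2, [1], [0, 1], by decide, by decide, rfl⟩

theorem rep_split {n : ℕ} {u v : List ℕ}
    (h : u ++ [0] ++ [1] ++ v = ab n) :
    1 ≤ n ∧ u = List.replicate (n - 1) 0 ∧ v = List.replicate (n - 1) 1 := by
  have h' : (u ++ [0]) ++ ([1] ++ v) = List.replicate n 0 ++ List.replicate n 1 := by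
    simpa [ab] using h
  rw [List.append_eq_append_iff] at h'
  have key : u ++ [0] = List.replicate n 0 ∧ [1] ++ v = List.replicate n 1 := by
    rcases h' with ⟨c, hc1, hc2⟩ | ⟨c, hc1, hc2⟩
    · rcases c with _ | ⟨x, c⟩
      · exact ⟨by simpa using hc1.symm, by simpa using hc2⟩
      · exfalso
        have hx : x ∈ List.replicate n 0 := by rw [hc1]; simp
        rw [List.mem_replicate] at hx
        simp only [List.cons_append, List.nil_append, List.cons.injEq] at hc2
        omega
    · rcases List.eq_nil_or_concat c with rfl | ⟨c', x, rfl⟩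
      · exact ⟨by simpa using hc1, by simpa using hc2.symm⟩
      · exfalso
        have hx : x ∈ List.replicate n 1 := by rw [hc2]; simp
        rw [List.mem_replicate] at hx
        have h2 : u ++ [0] = (List.replicate n 0 ++ c') ++ [x] := by
          simpa using hc1
        have h3 := congrArg List.getLast? h2
        simp at h3
        omega
  obtain ⟨k1, k2⟩ := key
  rcases n with _ | n
  · simp at k1
  · refine ⟨by omega, ?_, ?_⟩
    · rw [List.replicate_succ'] at k1
      simpa using (List.append_left_inj [0]).1 k1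
    · rw [List.replicate_succ] at k2
      simpa using k2

/-- Reachable words of the grammar. -/
def Inv (w : List ℕ) : Prop :=
  w = [3] ∨ ∃ n, 1 ≤ n ∧ (w = List.replicate n 0 ++ [2] ++ List.replicate n 1 ∨ w = ab n)

theorem ab_no {n s : ℕ} (h : s ∈ ab n) : s = 0 ∨ s = 1 := by
  simp only [ab, List.mem_append, List.mem_replicate] at h
  omega

theorem inv_step {w w' : List ℕ} (hw : Inv w) (h : GG.BStep w w') : Inv w' := by
  obtain ⟨u, α, A, β, v, γ, u', v', hP, hA, hγ, rfl, rfl, hctx⟩ := h
  have hA' : A = 2 ∨ A = 3 := by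
    simp only [GG, Finset.mem_sdiff, Finset.mem_insert, Finset.mem_singleton] at hA
    omega
  rcases hw with hw | ⟨n, hn, hw | hw⟩
  · -- the start symbol
    have hlen := congrArg List.length hw
    simp only [List.length_append, List.length_cons, List.length_nil] at hlen
    have hu : u = [] := List.eq_nil_of_length_eq_zero (by omega)
    have hα : α = [] := List.eq_nil_of_length_eq_zero (by omega)
    have hβ : β = [] := List.eq_nil_of_length_eq_zero (by omega)
    have hv : v = [] := List.eq_nil_of_length_eq_zero (by omega)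
    subst hu hα hβ hv
    simp only [List.nil_append, List.append_nil, List.cons.injEq, and_true] at hw
    subst hw
    simp only [List.nil_append, List.append_nil] at hctx
    have hu' : u' = [] := by
      have := (List.append_eq_nil_iff.1 hctx.symm).1; exact this
    have hv' : v' = [] := by
      have := (List.append_eq_nil_iff.1 hctx.symm).2; exact this
    subst hu' hv'
    simp only [GG, Finset.mem_insert, Finset.mem_singleton, List.nil_append, List.append_nil,
      Prod.mk.injEq] at hP
    simp only [List.nil_append, List.append_nil]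
    rcases hP with ⟨-, rfl⟩ | ⟨-, rfl⟩ | ⟨h, -⟩ | ⟨h, -⟩
    · exact Or.inr ⟨1, le_refl _, Or.inl rfl⟩
    · exact Or.inr ⟨1, le_refl _, Or.inr rfl⟩
    · exact absurd h (by decide)
    · exact absurd h (by decide)
  · -- a sentential form with one `X`
    have hAm : A ∈ List.replicate n 0 ++ [2] ++ List.replicate n 1 := by rw [← hw]; simp
    have hA2 : A = 2 := by
      simp only [List.mem_append, List.mem_replicate, List.mem_singleton] at hAm
      omega
    subst hA2
    -- identify the context of the rule
    have hr : α = [0] ∧ β = [1] ∧ (γ = [0, 2, 1] ∨ γ = [0, 1]) := by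
      have hx : α ++ [2] ++ β = [0, 2, 1] ∧
          (α ++ γ ++ β = [0, 0, 2, 1, 1] ∨ α ++ γ ++ β = [0, 0, 1, 1]) := by
        simp only [GG, Finset.mem_insert, Finset.mem_singleton, Prod.mk.injEq] at hP
        rcases hP with ⟨h, -⟩ | ⟨h, -⟩ | ⟨h, h'⟩ | ⟨h, h'⟩
        · exfalso
          have : (2 : ℕ) ∈ ([3] : List ℕ) := by rw [← h]; simp
          simp at this
        · exfalso
          have : (2 : ℕ) ∈ ([3] : List ℕ) := by rw [← h]; simp
          simp at this
        · exact ⟨h, Or.inl h'⟩
        · exact ⟨h, Or.inr h'⟩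
      obtain ⟨hx, hy⟩ := hx
      rcases α with _ | ⟨x, _ | ⟨y, α⟩⟩
      · simp at hx
      · simp only [List.cons_append, List.nil_append, List.cons.injEq, true_and] at hx
        obtain ⟨rfl, rfl⟩ := hx
        refine ⟨rfl, rfl, ?_⟩
        rcases hy with hy | hy
        · left
          have : γ ++ [1] = [0, 2, 1] ++ [1] := by simpa using hy
          exact List.append_cancel_right this
        · right
          have : γ ++ [1] = [0, 1] ++ [1] := by simpa using hy
          exact List.append_cancel_right this
      · exfalso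
        simp only [List.cons_append, List.cons.injEq] at hx
        obtain ⟨-, rfl, h3⟩ := hx
        have hl := congrArg List.length h3
        simp only [List.length_append, List.length_cons, List.length_nil] at hl
        have h5 : (2 : ℕ) ∈ ([1] : List ℕ) := by rw [← h3]; simp
        simp at h5
    obtain ⟨rfl, rfl, hγ'⟩ := hr
    -- the surrounding word is `aⁿbⁿ`
    have hsur : u ++ [0] ++ [1] ++ v = ab n := by
      have h1 : (u ++ [0]) ++ 2 :: ([1] ++ v) = List.replicate n 0 ++ 2 :: List.replicate n 1 := by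
        simpa using hw
      have h2 : u ++ [0] = List.replicate n 0 ∧ [1] ++ v = List.replicate n 1 := by
        rw [List.append_eq_append_iff] at h1
        rcases h1 with ⟨c, hc1, hc2⟩ | ⟨c, hc1, hc2⟩
        · rcases c with _ | ⟨x, c⟩
          · exact ⟨by simpa using hc1.symm, by simpa using hc2⟩
          · exfalso
            simp only [List.cons_append, List.nil_append, List.cons.injEq] at hc2
            have : x ∈ List.replicate n 0 := by rw [hc1]; simp
            rw [List.mem_replicate] at this
            omega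
        · rcases c with _ | ⟨x, c⟩
          · exact ⟨by simpa using hc1, by simpa using hc2.symm⟩
          · exfalso
            simp only [List.cons_append, List.cons.injEq] at hc2
            have : (2 : ℕ) ∈ List.replicate n 1 := by rw [hc2.2]; simp
            rw [List.mem_replicate] at this
            omega
      have h3 : u ++ [0] ++ [1] ++ v = (u ++ [0]) ++ ([1] ++ v) := by simp
      rw [h3, h2.1, h2.2]; rfl
    rw [hctx] at hsur
    obtain ⟨_, rfl, rfl⟩ := rep_split hsur
    right
    refine ⟨n + 1, by omega, ?_⟩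
    obtain ⟨m, rfl⟩ : ∃ m, n = m + 1 := ⟨n - 1, by omega⟩
    have e0 : List.replicate (m + 1 + 1) (0 : ℕ) = List.replicate m 0 ++ [0, 0] := by
      rw [List.replicate_succ', List.replicate_succ']; simp
    have e1 : List.replicate (m + 1 + 1) (1 : ℕ) = [1, 1] ++ List.replicate m 1 := by
      rw [List.replicate_succ, List.replicate_succ]; simp
    rcases hγ' with rfl | rfl
    · left
      rw [e0, e1]; simp
    · right
      rw [ab, e0, e1]; simp
  · -- terminal words have no successor
    exfalso
    have hAm : A ∈ ab n := by rw [← hw]; simp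
    have := ab_no hAm
    omega

theorem reach_inv {w : List ℕ} (h : Relation.ReflTransGen GG.BStep [3] w) : Inv w := by
  induction h with
  | refl => exact Or.inl rfl
  | tail _ h2 ih => exact inv_step ih h2

theorem reach_X (n : ℕ) :
    Relation.ReflTransGen GG.BStep [3] (List.replicate (n + 1) 0 ++ [2] ++ List.replicate (n + 1) 1) := by
  induction n with
  | zero =>
    refine Relation.ReflTransGen.single ?_
    exact ⟨[], [], 3, [], [], [0, 2, 1], [], [], by decide, by decide, by decide, rfl, rfl, rfl⟩
  | succ n ih =>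
    refine ih.tail ?_
    refine ⟨List.replicate n 0, [0], 2, [1], List.replicate n 1, [0, 2, 1], List.replicate n 0,
      List.replicate n 1, by decide, by decide, by decide, ?_, ?_, rfl⟩
    · have e0 : List.replicate (n + 1) (0 : ℕ) = List.replicate n 0 ++ [0] := List.replicate_succ'
      have e1 : List.replicate (n + 1) (1 : ℕ) = [1] ++ List.replicate n 1 := rfl
      rw [e0, e1]; simp
    · have e0 : List.replicate (n + 1 + 1) (0 : ℕ) = List.replicate n 0 ++ [0, 0] := by
        rw [List.replicate_succ', List.replicate_succ']; simp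
      have e1 : List.replicate (n + 1 + 1) (1 : ℕ) = [1, 1] ++ List.replicate n 1 := rfl
      rw [e0, e1]; simp

theorem reach_ab (n : ℕ) : Relation.ReflTransGen GG.BStep [3] (ab (n + 1)) := by
  rcases n with _ | n
  · refine Relation.ReflTransGen.single ?_
    exact ⟨[], [], 3, [], [], [0, 1], [], [], by decide, by decide, by decide, rfl, rfl, rfl⟩
  · refine (reach_X n).tail ?_
    refine ⟨List.replicate n 0, [0], 2, [1], List.replicate n 1, [0, 1], List.replicate n 0,
      List.replicate n 1, by decide, by decide, by decide, ?_, ?_, rfl⟩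
    · have e0 : List.replicate (n + 1) (0 : ℕ) = List.replicate n 0 ++ [0] := List.replicate_succ'
      have e1 : List.replicate (n + 1) (1 : ℕ) = [1] ++ List.replicate n 1 := rfl
      rw [e0, e1]; simp
    · have e0 : List.replicate (n + 1 + 1) (0 : ℕ) = List.replicate n 0 ++ [0, 0] := by
        rw [List.replicate_succ', List.replicate_succ']; simp
      have e1 : List.replicate (n + 1 + 1) (1 : ℕ) = [1, 1] ++ List.replicate n 1 := rfl
      rw [ab, e0, e1]; simp

theorem GG_lang : GG.lang GG.BStep = {w | ∃ n, 1 ≤ n ∧ w = ab n} := by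
  ext w
  constructor
  · rintro ⟨hT, hw⟩
    rcases reach_inv hw with rfl | ⟨n, hn, rfl | rfl⟩
    · exfalso
      have := hT 3 (by simp)
      exact absurd this (by decide)
    · exfalso
      have := hT 2 (by simp)
      exact absurd this (by decide)
    · exact ⟨n, hn, rfl⟩
  · rintro ⟨n, hn, rfl⟩
    obtain ⟨m, rfl⟩ : ∃ m, n = m + 1 := ⟨n - 1, by omega⟩
    refine ⟨?_, reach_ab m⟩
    intro s hs
    rcases ab_no hs with rfl | rfl <;> decide

theorem ab_sorted (n : ℕ) : (ab n).Pairwise (· ≤ ·) := by
  rw [ab, List.pairwise_append]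
  refine ⟨by simp [List.pairwise_replicate], by simp [List.pairwise_replicate], ?_⟩
  intro a ha b hb
  rw [List.mem_replicate] at ha hb
  omega

theorem not_mong (H : Gram) (hH : H.IsMONG) :
    H.lang H.JStep ≠ {w | ∃ n, 1 ≤ n ∧ w = ab n} := by
  intro hL
  -- a bound on the lengths of right-hand sides
  obtain ⟨M, hM⟩ : ∃ M : ℕ, ∀ r ∈ H.P, r.2.length ≤ M :=
    ⟨H.P.sup (fun r => r.2.length), fun r hr => Finset.le_sup (f := fun r => r.2.length) hr⟩
  have hw : ab (M + 1) ∈ H.lang H.JStep := by
    rw [hL]; exact ⟨M + 1, by omega, rfl⟩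
  obtain ⟨hT, hd⟩ := hw
  rcases Relation.ReflTransGen.cases_tail hd with h | ⟨z, hz, hstep⟩
  · have : H.S ∈ ab (M + 1) := by rw [h]; simp
    have h1 := hT _ this
    have h2 := H.S_mem
    rw [Finset.mem_sdiff] at h2
    exact h2.2 h1
  · obtain ⟨u, x, v, y, u', v', hP, hzu, hwu, huv⟩ := hstep
    set r := u' ++ v' with hr
    have hTr : ∀ s ∈ y ++ r, s ∈ H.T := by
      intro s hs
      apply hT
      rw [hwu]
      simp only [hr, List.mem_append] at hs ⊢
      tauto
    have hTr' : ∀ s ∈ r ++ y, s ∈ H.T := by
      intro s hs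
      apply hTr
      simp only [List.mem_append] at hs ⊢
      tauto
    have h1 : y ++ r ∈ H.lang H.JStep :=
      ⟨hTr, hz.tail ⟨u, x, v, y, [], r, hP, hzu, by simp, by rw [huv]; simp [hr]⟩⟩
    have h2 : r ++ y ∈ H.lang H.JStep :=
      ⟨hTr', hz.tail ⟨u, x, v, y, r, [], hP, hzu, by simp, by rw [huv]; simp [hr]⟩⟩
    rw [hL] at h1 h2
    obtain ⟨k, hk, h1⟩ := h1
    obtain ⟨l, hl, h2⟩ := h2
    have hy : y ≠ [] := by
      have h3 := hH _ hP
      obtain ⟨-, s, hs, -⟩ := H.P_left _ hP
      intro h4
      subst h4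
      simp only [List.length_nil, nonpos_iff_eq_zero, List.length_eq_zero_iff] at h3
      rw [h3] at hs
      simp at hs
    have hr0 : r ≠ [] := by
      intro h3
      have h4 := hM _ hP
      have h5 := congrArg List.length hwu
      have h6 := congrArg List.length hr
      rw [h3] at h6
      simp only [ab, List.length_append, List.length_replicate, List.length_nil] at h5 h6
      simp only at h4
      omega
    have s1 := ab_sorted k
    have s2 := ab_sorted l
    rw [← h1, List.pairwise_append] at s1
    rw [← h2, List.pairwise_append] at s2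
    obtain ⟨p, hp⟩ := List.exists_mem_of_ne_nil _ hy
    obtain ⟨q, hq⟩ := List.exists_mem_of_ne_nil _ hr0
    have hcy : ∀ s ∈ y, s = q := fun s hs => le_antisymm (s1.2.2 s hs q hq) (s2.2.2 q hq s hs)
    have hcr : ∀ s ∈ r, s = p := fun s hs => le_antisymm (s2.2.2 s hs p hp) (s1.2.2 p hp s hs)
    have hpq : p = q := hcy p hp
    have h0 : (0 : ℕ) ∈ y ++ r := by
      rw [h1, ab]; simp; omega
    have h0' : (1 : ℕ) ∈ y ++ r := by
      rw [h1, ab]; simp; omega
    rw [List.mem_append] at h0 h0'
    have e0 : (0 : ℕ) = p := by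
      rcases h0 with h | h
      · rw [hpq]; exact hcy _ h
      · exact hcr _ h
    have e1 : (1 : ℕ) = p := by
      rcases h0' with h | h
      · rw [hpq]; exact hcy _ h
      · exact hcr _ h
    omega

/-- There is a context-sensitive grammar `G` such that no monotonous grammar `H`
satisfies `L(H, jumping) = L(G, context-preserving jumping)`. -/
theorem result : ∃ G : Gram, G.IsCSG ∧ ∀ H : Gram, H.IsMONG →
    H.lang H.JStep ≠ G.lang G.BStep := by
  refine ⟨GG, GG_csg, ?_⟩
  intro H hH
  rw [GG_lang]
  exact not_mong H hH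

end Pool.Agent.Results.MP_b8a1e8_lc.CsgNotMong
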